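import Pool.Agent.K4H73.Blocking.Small

/-!
# MP_837a86_co: disjoint projective copies of the blocking set in `PG(2, p ^ 3)`

For every prime `p` there is a projectivity `γ ∈ PGL(3, p ^ 3)` with `B ∩ γ(B) = ∅`, where
`B = {(1, x, x ^ p)} ∪ {(0, 1, y) : y ^ (p ^ 2 + p + 1) = 1}`.

Proof for `p ≥ 5`: let `M` be a uniformly random `3 × 3` matrix and let `X` be the number of points
of `B` mapped into `B`. Then `12 P(X = 0) ≥ E (1 - X)(X - 3)(X - 4)`, and the first three moments of
`X` are computed from the numbers of points, pairs and collinear triples of `B`; this gives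
`P(X = 0) > P(det M = 0)`. For `p = 2` and `p = 3` an explicit projectivity is given.
-/

set_option autoImplicit false

namespace Pool.Agent.Results.MP_837a86_co.DisjointCopy

open Projectivization MatrixGroups Matrix

theorem affine_ne_zero {F : Type*} [Field F] (a b : F) : ![1, a, b] ≠ (0 : Fin 3 → F) :=
  fun h => one_ne_zero (congrFun h 0)

theorem infinite_ne_zero {F : Type*} [Field F] (b : F) : ![0, 1, b] ≠ (0 : Fin 3 → F) :=
  fun h => one_ne_zero (congrFun h 1)

/-- The point set `B = {(1, x, x ^ p) : x ∈ F} ∪ {(0, 1, y) : y ∈ F, y ^ (p ^ 2 + p + 1) = 1}` of the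
projective plane over `F`; points are the lines through the origin of `F ^ 3`. -/
def B (p : ℕ) (F : Type*) [Field F] : Set (Projectivization F (Fin 3 → F)) :=
  {P | (∃ x : F, P = Projectivization.mk F ![1, x, x ^ p] (affine_ne_zero x (x ^ p))) ∨
    ∃ y : F, y ^ (p ^ 2 + p + 1) = 1 ∧ P = Projectivization.mk F ![0, 1, y] (infinite_ne_zero y)}

open Pool.Agent.K4H73.Blocking in
theorem exists_repr {p : ℕ} {F : Type*} [Field F] [Fintype F] [DecidableEq F]
    {P : Projectivization F (Fin 3 → F)} (hP : P ∈ B p F) :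
    ∃ r ∈ RR F p, ∃ h : r ≠ 0, P = Projectivization.mk F r h := by
  rcases hP with ⟨x, rfl⟩ | ⟨y, hy, rfl⟩
  · exact ⟨_, Finset.mem_union.2 (Or.inl (mem_R1.2 ⟨x, rfl⟩)), affine_ne_zero _ _, rfl⟩
  · exact ⟨_, Finset.mem_union.2 (Or.inr (mem_R2.2 ⟨y, hy, rfl⟩)), infinite_ne_zero _, rfl⟩

/-- **For every prime `p` and every field `F` with `p ^ 3` elements there is a projectivity
`γ ∈ PGL(3, F)` such that `B` and `γ(B)` are disjoint.** -/
theorem result (p : ℕ) (hp : p.Prime) (F : Type*) [Field F] [Fintype F]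
    (hF : Fintype.card F = p ^ 3) :
    ∃ γ : PGL(Fin 3, F), Disjoint (B p F) ((fun P => γ • P) '' B p F) := by
  classical
  obtain ⟨M, hM, h⟩ : ∃ M : Matrix (Fin 3) (Fin 3) F, IsUnit M ∧
      ∀ r ∈ Pool.Agent.K4H73.Blocking.RR F p, ¬ Pool.Agent.K4H73.Blocking.InC p (M *ᵥ r) := by
    by_cases h5 : 5 ≤ p
    · exact Pool.Agent.K4H73.Blocking.exists_large p hp h5 hF
    · have h2 := hp.two_le
      have h4 : p ≠ 4 := by rintro rfl; revert hp; norm_num
      have : p = 2 ∨ p = 3 := by omega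
      rcases this with rfl | rfl
      · exact Pool.Agent.K4H73.Blocking.exists_two hF
      · exact Pool.Agent.K4H73.Blocking.exists_three hF
  obtain ⟨g, rfl⟩ := hM
  refine ⟨Matrix.ProjGenLinGroup.mk g, ?_⟩
  rw [Set.disjoint_left]
  rintro P hP ⟨P', hP', e⟩
  obtain ⟨r, hr, hr0, rfl⟩ := exists_repr hP
  obtain ⟨r', hr', hr0', rfl⟩ := exists_repr hP'
  apply h r' hr'
  rw [← Pool.Agent.K4H73.Blocking.mem_CC,
    (Pool.Agent.K4H73.Blocking.isCone (F := F) p hp.one_le).mem]
  simp only [PGL.mk_smul_mk] at e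
  rw [Projectivization.mk_eq_mk_iff] at e
  obtain ⟨a, ha⟩ := e
  exact ⟨r, hr, (a : F), a.ne_zero, ha.symm⟩

end Pool.Agent.Results.MP_837a86_co.DisjointCopy
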